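import Mathlib
import Pool.Agent.H.MP_1aba1b_co.Up
import Pool.Agent.H.MP_1aba1b_co.Low

set_option autoImplicit false

namespace Pool.Agent.Results.MP_1aba1b_co.Exact

open Finset Pool.Agent.H.MP_1aba1b_co

/-- `(a 1, …, a k)` is a `k`-flip sequence: it is a strictly increasing sequence of positive
integers, and some nonempty finite simple graph has an edge-colouring `f` with colours `1, …, k`
in which every vertex meets exactly `a j` edges of colour `j`, while the number of edges of colour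
`j` inside each closed neighbourhood is strictly decreasing in `j`. -/
def Flip (k : ℕ) (a : ℕ → ℕ) : Prop :=
  (∀ j ∈ Set.Icc 1 k, 0 < a j) ∧ StrictMonoOn a (Set.Icc 1 k) ∧
  ∃ (n : ℕ) (G : SimpleGraph (Fin n)) (f : Sym2 (Fin n) → ℕ), 0 < n ∧
    (∀ e ∈ G.edgeSet, f e ∈ Set.Icc 1 k) ∧
    (∀ v, ∀ j ∈ Set.Icc 1 k, {w | G.Adj v w ∧ f s(v, w) = j}.ncard = a j) ∧
    ∀ v, StrictAntiOn
      (fun j => {e ∈ G.edgeSet | f e = j ∧ ∀ x ∈ e, x = v ∨ G.Adj v x}.ncard) (Set.Icc 1 k)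

lemma ncard_sum {V : Type} [Fintype V] (p : V → Prop) [DecidablePred p] :
    {w | p w}.ncard = ∑ w, if p w then 1 else 0 := by
  rw [← card_filter, ← Set.ncard_coe_finset]
  simp

lemma step_mono {k : ℕ} {d : ℕ → ℕ} (r : ℕ → ℕ → Prop) [IsTrans ℕ r]
    (h : ∀ j, 1 ≤ j → j + 1 ≤ k → r (d j) (d (j + 1))) (i j : ℕ) (hi : 1 ≤ i) (hij : i < j)
    (hj : j ≤ k) : r (d i) (d j) := by
  induction j, hij using Nat.le_induction with
  | base => exact h i hi hj
  | succ j hij ih => exact _root_.trans (ih (by omega)) (h j (by omega) hj)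

open scoped Classical in
lemma lower {k t m p : ℕ} {d E b : ℕ → ℕ} (h : Real k d E t m p b) (h1 : ∀ j ∈ Icc 1 k, 0 < d j)
    (h2 : ∀ j, 1 ≤ j → j + 1 ≤ k → d j < d (j + 1) ∧ E (j + 1) < E j) : Flip k d := by
  obtain ⟨A, i1, i2, col, U, h0, hn, hk, hc, -⟩ := h
  have sy : ∀ x y : A, col (x - y) = col (y - x) := fun x y => by rw [← hn, neg_sub]
  let e := (Fintype.equivFin A).symm
  let G : SimpleGraph (Fin (Fintype.card A)) :=
    { Adj := fun x y => col (e x - e y) ≠ 0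
      symm := ⟨fun x y h => by rwa [sy]⟩
      loopless := ⟨fun x h => h (by rw [sub_self, h0])⟩ }
  let f : Sym2 (Fin (Fintype.card A)) → ℕ :=
    Sym2.lift ⟨fun x y => col (e x - e y), fun x y => sy _ _⟩
  refine ⟨fun j hj => h1 j (mem_Icc.2 hj), fun i hi j hj hij =>
    step_mono (· < ·) (fun j a b => (h2 j a b).1) i j hi.1 hij hj.2, _, G, f, Fintype.card_pos,
    fun x hx => ?_, fun v j hj => ?_, fun v i hi j hj hij => ?_⟩
  · induction x using Sym2.ind with
    | _ x y => exact ⟨Nat.one_le_iff_ne_zero.2 hx, hk _⟩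
  · have hj0 : j ≠ 0 := by have := hj.1; omega
    rw [ncard_sum, ← (hc j hj0).1, cnt]
    refine Fintype.sum_equiv (e.trans (Equiv.subLeft (e v))) _ _ fun w => ?_
    refine if_congr ?_ rfl rfl
    simp only [G, f, Sym2.lift_mk, Equiv.trans_apply, Equiv.subLeft_apply, AddSubgroup.mem_top,
      true_and]
    exact ⟨fun h => h.2, fun h => ⟨h ▸ hj0, h⟩⟩
  · have key : ∀ j, j ≠ 0 →
        2 * {e ∈ G.edgeSet | f e = j ∧ ∀ x ∈ e, x = v ∨ G.Adj v x}.ncard = E j := by
      intro j hj0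
      rw [two_ncard, ← (hc j hj0).2.1, ee]
      refine Fintype.sum_equiv (e.trans (Equiv.subLeft (e v))) _ _ fun x =>
        Fintype.sum_equiv (e.trans (Equiv.subLeft (e v))) _ _ fun y => ?_
      refine if_congr ?_ rfl rfl
      simp only [G, f, Sym2.lift_mk, Equiv.trans_apply, Equiv.subLeft_apply, Sym2.mem_iff,
        forall_eq_or_imp, forall_eq, sub_sub_sub_cancel_left, sub_eq_zero, e.apply_eq_iff_eq,
        sy (e y) (e x), eq_comm (a := v)]
      exact ⟨fun h => ⟨h.2.2.1, h.2.2.2, h.2.1⟩, fun h => ⟨h.2.2 ▸ hj0, h.2.2, h.1, h.2.1⟩⟩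
    have := step_mono (· > ·) (fun j a b => (h2 j a b).2) i j hi.1 hij hj.2
    have a := key i (by have := hi.1; omega)
    have b := key j (by have := hj.1; omega)
    simp only
    omega

open scoped Classical in
lemma upper {k q : ℕ} {a : ℕ → ℕ} (h : Flip k a) (hq : 1 ≤ q) (hk : q < k) (h3 : k ≤ 3 * q) :
    a k ≤ 2 * ((1 + q * a q) * (q * a q)) := by
  obtain ⟨-, hm, n, G, f, hn, hf, hd, he⟩ := h
  have hf' : ∀ x y, G.Adj x y → 1 ≤ f s(x, y) ∧ f s(x, y) ≤ k := fun x y h => hf _ h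
  have sp : ∀ (P : Prop) (c : ℕ) (S : Finset ℕ),
      (if P ∧ c ∈ S then 1 else 0) = ∑ j ∈ S, if P ∧ c = j then 1 else 0 := by
    intro P c S
    by_cases hP : P <;> simp [hP]
  refine count_core (fun x y => if G.Adj x y ∧ f s(x, y) ∈ Icc 1 q then 1 else 0)
    (fun x y => if G.Adj x y ∧ f s(x, y) ∈ Icc (q + 1) k then 1 else 0)
    (fun x y => by simp only [G.adj_comm x y, Sym2.eq_swap (a := x)])
    (fun x y => by simp only [G.adj_comm x y, Sym2.eq_swap (a := x)]) (fun x y => ?_) _ _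
    (fun x => ?_) (fun x => ?_) (by simpa using hn) fun v => ?_
  · by_cases hxy : x = y
    · simp [hxy]
    · simp only [hxy, if_false, mem_Icc]
      split_ifs <;> omega
  · simp only [sp]
    rw [sum_comm]
    refine (sum_le_card_nsmul _ _ (a q) fun j hj => ?_).trans (by simp)
    rw [mem_Icc] at hj
    rw [← ncard_sum, hd x j ⟨hj.1, by omega⟩]
    exact hm.monotoneOn ⟨hj.1, by omega⟩ ⟨hq, hk.le⟩ hj.2
  · rw [← hd x k ⟨by omega, le_rfl⟩, ncard_sum]
    refine sum_le_sum fun y _ => ?_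
    simp only [mem_Icc]
    split_ifs with h1 h2
    exacts [le_rfl, absurd ⟨h1.1, by omega, by omega⟩ h2, Nat.zero_le _, le_rfl]
  · set w := fun j => {e ∈ G.edgeSet | f e = j ∧ ∀ x ∈ e, x = v ∨ G.Adj v x}.ncard with hw
    have c : ∀ x, (if v = x then 1 else 0) + (if G.Adj v x ∧ f s(v, x) ∈ Icc 1 q then 1 else 0) +
        (if G.Adj v x ∧ f s(v, x) ∈ Icc (q + 1) k then 1 else 0) =
        if x = v ∨ G.Adj v x then 1 else 0 := by
      intro x
      by_cases hx : v = x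
      · simp [hx]
      · by_cases h : G.Adj v x
        · have := hf' _ _ h
          simp only [hx, h, if_false, mem_Icc, true_and, or_true, if_true]
          split_ifs <;> omega
        · simp [hx, h, Ne.symm hx]
    have key : ∀ S : Finset ℕ, ∑ x, ∑ y, (if x = v ∨ G.Adj v x then 1 else 0) *
        (if y = v ∨ G.Adj v y then 1 else 0) * (if G.Adj x y ∧ f s(x, y) ∈ S then 1 else 0) =
        ∑ j ∈ S, 2 * w j := by
      intro S
      simp only [hw, two_ncard, sp, mul_sum]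
      rw [sum_comm (s := S)]
      refine sum_congr rfl fun x _ => ?_
      rw [sum_comm (s := S)]
      refine sum_congr rfl fun y _ => sum_congr rfl fun j _ => ?_
      simp only [Sym2.mem_iff, forall_eq_or_imp, forall_eq]
      by_cases h1 : x = v ∨ G.Adj v x <;> by_cases h2 : y = v ∨ G.Adj v y <;> simp [h1, h2]
    simp only [c, key]
    have u : ∑ j ∈ Icc (q + 1) k, 2 * w j ≤ (k - q) * (2 * w q) := by
      refine (sum_le_card_nsmul _ _ (2 * w q) fun j hj => ?_).trans (by simp)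
      rw [mem_Icc] at hj
      exact Nat.mul_le_mul_left _ ((he v).antitoneOn ⟨hq, hk.le⟩ ⟨by omega, hj.2⟩ (by omega))
    have l : q * (2 * w q) ≤ ∑ j ∈ Icc 1 q, 2 * w j := by
      refine le_trans (by simp) (card_nsmul_le_sum _ _ (2 * w q) fun j hj => ?_)
      rw [mem_Icc] at hj
      exact Nat.mul_le_mul_left _ ((he v).antitoneOn ⟨hj.1, by omega⟩ ⟨hq, hk.le⟩ hj.2)
    have : (k - q) * (2 * w q) ≤ 2 * q * (2 * w q) := Nat.mul_le_mul_right _ (by omega)
    nlinarith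

theorem result : ∀ k : ℕ, 4 ≤ k →
    IsGreatest {q : ℕ | 1 ≤ q ∧ q ≤ k - 1 ∧
      ∃ h : ℕ, 0 < h ∧ ∀ N : ℕ, ∃ a : ℕ → ℕ, Flip k a ∧ a q = h ∧ N < a k} ((k - 1) / 3) := by
  intro k hk
  refine ⟨⟨by omega, by omega, 2 * ((k - 1) / 3) ^ 2 + 3 + 2 * ((k - 1) / 3), by omega,
    fun N => ?_⟩, ?_⟩
  · obtain ⟨d, E, t, m, p, b, h, h1, h2, h3, h4⟩ := build k ((k - 1) / 3) (by omega) (by omega) N
    exact ⟨d, lower h h1 h2, h3, h4⟩
  · rintro q ⟨h1, h2, h, -, H⟩
    by_contra hc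
    obtain ⟨a, ha, rfl, hN⟩ := H (2 * ((1 + q * h) * (q * h)))
    exact absurd (upper ha h1 (by omega) (by omega)) hN.not_ge

end Pool.Agent.Results.MP_1aba1b_co.Exact
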